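import Mathlib

/-!
A covering lemma: sets on which functions of bounded mass and bounded variation on small cells
are large.
-/

namespace Pool.Agent.Helper59.BE

open MeasureTheory Filter Set
open scoped ENNReal Topology

/-- The cells. -/
noncomputable def cell (a b : ℝ) (q i : ℕ) : Set ℝ :=
  Icc (a + i * ((b - a) / q)) (a + (i + 1 : ℕ) * ((b - a) / q))

theorem cell_sub {a b : ℝ} (hab : a < b) {q i : ℕ} (hi : i < q) : cell a b q i ⊆ Icc a b := by
  intro x hx
  have hq : (0 : ℝ) < q := by
    have : 0 < q := by omega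
    exact_mod_cast this
  have hd : 0 ≤ (b - a) / q := by
    apply div_nonneg (by linarith) hq.le
  have h1 : ((i + 1 : ℕ) : ℝ) ≤ q := by exact_mod_cast hi
  have h2 : ((i + 1 : ℕ) : ℝ) * ((b - a) / q) ≤ q * ((b - a) / q) :=
    mul_le_mul_of_nonneg_right h1 hd
  have h3 : (q : ℝ) * ((b - a) / q) = b - a := by field_simp
  have h4 : 0 ≤ (i : ℝ) * ((b - a) / q) := by positivity
  refine ⟨by linarith [hx.1], by linarith [hx.2]⟩

theorem cell_cover {a b : ℝ} (hab : a < b) {q : ℕ} (hq : 0 < q) {x : ℝ} (hx : x ∈ Icc a b) :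
    ∃ i < q, x ∈ cell a b q i := by
  have hq' : (0 : ℝ) < q := by exact_mod_cast hq
  set δ := (b - a) / q with hδ
  have hδ0 : 0 < δ := by
    rw [hδ]
    apply div_pos (by linarith) hq'
  have h3 : (q : ℝ) * δ = b - a := by rw [hδ]; field_simp
  rcases eq_or_lt_of_le hx.2 with h | h
  · refine ⟨q - 1, by omega, ?_, ?_⟩
    · have : ((q - 1 : ℕ) : ℝ) ≤ q := by exact_mod_cast Nat.sub_le _ _
      have := mul_le_mul_of_nonneg_right this hδ0.le
      linarith
    · rw [Nat.sub_add_cancel hq]
      linarith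
  · set i := ⌊(x - a) / δ⌋₊ with hi
    have h0 : 0 ≤ (x - a) / δ := div_nonneg (by linarith [hx.1]) hδ0.le
    have h1 := Nat.floor_le h0
    have h2 := Nat.lt_floor_add_one ((x - a) / δ)
    rw [← hi] at h1 h2
    have h1' : (i : ℝ) * δ ≤ x - a := (le_div_iff₀ hδ0).mp h1
    have h2' : x - a < (i + 1) * δ := (div_lt_iff₀ hδ0).mp h2
    refine ⟨i, ?_, ?_, ?_⟩
    · have : (i : ℝ) * δ < q * δ := by linarith
      have := lt_of_mul_lt_mul_right this hδ0.le
      exact_mod_cast this
    · linarith
    · push_cast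
      linarith

theorem cell_ediam (a b : ℝ) (q i : ℕ) :
    Metric.ediam (cell a b q i) = ENNReal.ofReal ((b - a) / q) := by
  unfold cell
  rw [Real.ediam_Icc]
  congr 1
  push_cast
  ring

theorem cell_int {a b : ℝ} {q : ℕ} (hq : 0 < q) {f : ℝ → ℝ} (hf : Continuous f) :
    ∑ i ∈ Finset.range q, ∫ x in (a + i * ((b - a) / q))..(a + (i + 1 : ℕ) * ((b - a) / q)), f x =
      ∫ x in a..b, f x := by
  have h := intervalIntegral.sum_integral_adjacent_intervals (f := f) (μ := volume)
    (a := fun i : ℕ => a + i * ((b - a) / q)) (n := q) (fun k _ => hf.intervalIntegrable _ _)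
  simp only [Nat.cast_zero, zero_mul, add_zero] at h
  rw [h]
  congr 1
  have : (q : ℝ) ≠ 0 := by exact_mod_cast hq.ne'
  field_simp
  ring

/-- The bound of one cell. -/
theorem cell_bound {a b : ℝ} (hab : a < b) {f : ℝ → ℝ} (hf : Continuous f)
    {C : ℝ} (hC : 0 < C) {q : ℕ} {i : ℕ} (hi : i < q)
    (hvar : ∀ x ∈ Icc a b, ∀ y ∈ Icc a b, |x - y| ≤ (b - a) / q → f x ≤ C * f y) {E : ℝ}
    (hE : 0 < E) {y : ℝ} (hy : y ∈ cell a b q i) (hEy : E ≤ f y) :
    (b - a) / q ≤ C / E *
      ∫ x in (a + i * ((b - a) / q))..(a + (i + 1 : ℕ) * ((b - a) / q)), f x := by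
  have hq : (0 : ℝ) < q := by
    have : 0 < q := by omega
    exact_mod_cast this
  have hd : 0 ≤ (b - a) / q := by
    apply div_nonneg (by linarith) hq.le
  have hle : a + i * ((b - a) / q) ≤ a + (i + 1 : ℕ) * ((b - a) / q) := by
    push_cast
    nlinarith
  have h1 : ∫ x in (a + i * ((b - a) / q))..(a + (i + 1 : ℕ) * ((b - a) / q)), E / C ≤
      ∫ x in (a + i * ((b - a) / q))..(a + (i + 1 : ℕ) * ((b - a) / q)), f x := by
    apply intervalIntegral.integral_mono_on hle (by simp) (hf.intervalIntegrable _ _)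
    intro x hx
    have hxI := cell_sub hab hi hx
    have hyI := cell_sub hab hi hy
    have h2 : |y - x| ≤ (b - a) / q := by
      have h3 := hx.1
      have h4 := hx.2
      have h5 := hy.1
      have h6 := hy.2
      push_cast at h4 h6
      rw [abs_le]
      constructor <;> linarith
    have h7 := hvar y hyI x hxI h2
    rw [div_le_iff₀ hC]
    linarith
  rw [intervalIntegral.integral_const, smul_eq_mul] at h1
  have h8 : (a + (i + 1 : ℕ) * ((b - a) / q) - (a + i * ((b - a) / q))) = (b - a) / q := by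
    push_cast
    ring
  rw [h8] at h1
  calc (b - a) / q = C / E * ((b - a) / q * (E / C)) := by field_simp
    _ ≤ _ := mul_le_mul_of_nonneg_left h1 (by positivity)

/-- The covering lemma. -/
theorem cover {a b : ℝ} (hab : a < b) {F : ℕ → ℝ → ℝ} (hFc : ∀ N, Continuous (F N))
    (hF0 : ∀ N x, 0 ≤ F N x) {K : ℝ} (hK : ∀ N, ∫ x in a..b, F N x ≤ K)
    {C : ℝ} (hC : 0 < C) {q : ℕ → ℕ} (hq : ∀ N, 0 < q N)
    (hvar : ∀ N, ∀ x ∈ Icc a b, ∀ y ∈ Icc a b, |x - y| ≤ (b - a) / q N → F N x ≤ C * F N y)
    {d H : ℝ} (hd : 0 < d)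
    (hlim : Tendsto (fun N : ℕ => (q N : ℝ) ^ (1 - d) * Real.exp (-(N * H))) atTop (𝓝 0))
    (hqi : Tendsto (fun N => (q N : ℝ)) atTop atTop) :
    μH[d] {x | x ∈ Icc a b ∧ ∀ᶠ N : ℕ in atTop, Real.exp (N * H) ≤ F N x} = 0 := by
  have hsub : {x | x ∈ Icc a b ∧ ∀ᶠ N : ℕ in atTop, Real.exp (N * H) ≤ F N x} ⊆
      ⋃ M : ℕ, {x | x ∈ Icc a b ∧ ∀ N : ℕ, M ≤ N → Real.exp (N * H) ≤ F N x} := by
    intro x hx
    obtain ⟨M, hM⟩ := eventually_atTop.mp hx.2
    exact mem_iUnion.mpr ⟨M, hx.1, hM⟩
  refine measure_mono_null hsub ?_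
  refine measure_iUnion_null fun M => ?_
  set S : Set ℝ := {x | x ∈ Icc a b ∧ ∀ N : ℕ, M ≤ N → Real.exp (N * H) ≤ F N x} with hS
  have hba : 0 < b - a := by linarith
  have hqr : ∀ N, (0 : ℝ) < q N := fun N => by exact_mod_cast hq N
  have hmain := Measure.hausdorffMeasure_le_liminf_sum (X := ℝ) (ι := fun N : ℕ => Fin (q N)) d S
    (l := atTop) (fun N => ENNReal.ofReal ((b - a) / q N)) (by
      rw [← ENNReal.ofReal_zero]
      apply ENNReal.tendsto_ofReal
      exact Tendsto.div_atTop tendsto_const_nhds hqi)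
    (fun N i => cell a b (q N) i ∩ S) (by
      refine Eventually.of_forall fun N i => ?_
      rw [← cell_ediam a b (q N) i]
      exact Metric.ediam_mono inter_subset_left) (by
      refine Eventually.of_forall fun N x hx => ?_
      obtain ⟨i, hi, hxi⟩ := cell_cover hab (hq N) hx.1
      exact mem_iUnion.mpr ⟨⟨i, hi⟩, hxi, hx⟩)
  have hbd : ∀ N : ℕ, M ≤ N → ∑ i : Fin (q N), Metric.ediam (cell a b (q N) i ∩ S) ^ d ≤
      ENNReal.ofReal ((b - a) ^ (d - 1) * C * K * ((q N : ℝ) ^ (1 - d) * Real.exp (-(N * H)))) := by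
    intro N hN
    have hcell : ∀ i : Fin (q N), Metric.ediam (cell a b (q N) i ∩ S) ^ d ≤
        ENNReal.ofReal (((b - a) / q N) ^ (d - 1) * (C / Real.exp (N * H) *
          ∫ x in (a + (i : ℕ) * ((b - a) / q N))..(a + ((i : ℕ) + 1 : ℕ) * ((b - a) / q N)),
            F N x)) := by
      intro i
      rcases (cell a b (q N) i ∩ S).eq_empty_or_nonempty with he | ⟨y, hy1, hy2⟩
      · rw [he, Metric.ediam_empty, ENNReal.zero_rpow_of_pos hd]
        exact bot_le
      · have h1 := cell_bound hab (hFc N) hC i.2 (hvar N) (Real.exp_pos (N * H)) hy1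
          (hy2.2 N hN)
        have h2 : Metric.ediam (cell a b (q N) i ∩ S) ^ d ≤
            (ENNReal.ofReal ((b - a) / q N)) ^ d := by
          apply ENNReal.rpow_le_rpow _ hd.le
          rw [← cell_ediam a b (q N) i]
          exact Metric.ediam_mono inter_subset_left
        refine h2.trans ?_
        have hp : 0 < (b - a) / q N := div_pos hba (hqr N)
        rw [ENNReal.ofReal_rpow_of_pos hp]
        apply ENNReal.ofReal_le_ofReal
        calc ((b - a) / q N) ^ d = ((b - a) / q N) ^ (d - 1) * ((b - a) / q N) := by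
              rw [← Real.rpow_add_one hp.ne']
              congr 1
              ring
          _ ≤ _ := mul_le_mul_of_nonneg_left h1 (by positivity)
    have hnn : ∀ i : ℕ, i < q N → 0 ≤
        ∫ x in (a + (i : ℕ) * ((b - a) / q N))..(a + ((i : ℕ) + 1 : ℕ) * ((b - a) / q N)),
            F N x := by
      intro i _
      apply intervalIntegral.integral_nonneg
      · have hp : 0 < (b - a) / q N := div_pos hba (hqr N)
        push_cast
        nlinarith
      · intro x _
        exact hF0 N x
    calc ∑ i : Fin (q N), Metric.ediam (cell a b (q N) i ∩ S) ^ d ≤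
        ∑ i : Fin (q N), ENNReal.ofReal (((b - a) / q N) ^ (d - 1) * (C / Real.exp (N * H) *
          ∫ x in (a + (i : ℕ) * ((b - a) / q N))..(a + ((i : ℕ) + 1 : ℕ) * ((b - a) / q N)),
            F N x)) := Finset.sum_le_sum fun i _ => hcell i
      _ = ENNReal.ofReal (∑ i : Fin (q N), ((b - a) / q N) ^ (d - 1) * (C / Real.exp (N * H) *
          ∫ x in (a + (i : ℕ) * ((b - a) / q N))..(a + ((i : ℕ) + 1 : ℕ) * ((b - a) / q N)),
            F N x)) := by
          rw [ENNReal.ofReal_sum_of_nonneg]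
          intro i _
          have := hnn i i.2
          have hp : 0 < (b - a) / q N := div_pos hba (hqr N)
          positivity
      _ = ENNReal.ofReal (((b - a) / q N) ^ (d - 1) * (C / Real.exp (N * H) *
            ∫ x in a..b, F N x)) := by
          congr 1
          rw [← Finset.mul_sum, ← Finset.mul_sum]
          congr 2
          rw [← cell_int (hq N) (hFc N), Finset.sum_range]
      _ ≤ _ := by
          apply ENNReal.ofReal_le_ofReal
          have hp : 0 < (b - a) / q N := div_pos hba (hqr N)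
          calc ((b - a) / q N) ^ (d - 1) * (C / Real.exp (N * H) * ∫ x in a..b, F N x) ≤
              ((b - a) / q N) ^ (d - 1) * (C / Real.exp (N * H) * K) := by
                apply mul_le_mul_of_nonneg_left _ (by positivity)
                apply mul_le_mul_of_nonneg_left (hK N) (by positivity)
            _ = _ := by
                rw [Real.div_rpow hba.le (hqr N).le, Real.exp_neg]
                have : (q N : ℝ) ^ (1 - d) = ((q N : ℝ) ^ (d - 1))⁻¹ := by
                  rw [← Real.rpow_neg (hqr N).le]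
                  congr 1
                  ring
                rw [this]
                field_simp
  have hlim2 : Tendsto (fun N : ℕ => ENNReal.ofReal ((b - a) ^ (d - 1) * C * K *
      ((q N : ℝ) ^ (1 - d) * Real.exp (-(N * H))))) atTop (𝓝 0) := by
    rw [← ENNReal.ofReal_zero]
    apply ENNReal.tendsto_ofReal
    have := hlim.const_mul ((b - a) ^ (d - 1) * C * K)
    rwa [mul_zero] at this
  have h0 : liminf (fun N => ∑ i : Fin (q N), Metric.ediam (cell a b (q N) i ∩ S) ^ d) atTop ≤
      0 := by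
    rw [← hlim2.liminf_eq]
    refine liminf_le_liminf ?_
    filter_upwards [eventually_ge_atTop M] with N hN
    exact hbd N hN
  exact le_antisymm (hmain.trans h0) bot_le

end Pool.Agent.Helper59.BE
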