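import Mathlib

/-!
First derivative test for real polynomials.
-/

namespace Pool.Agent.Helper59.BE

open Polynomial MeasureTheory intervalIntegral Complex
open scoped Interval

/-- `e(t) = exp(2 π i t)`. -/
noncomputable def ee (t : ℝ) : ℂ := Complex.exp (2 * Real.pi * Complex.I * t)

theorem norm_ee (t : ℝ) : ‖ee t‖ = 1 := by
  unfold ee
  rw [show (2 * (Real.pi : ℂ) * Complex.I * t) = ((2 * Real.pi * t : ℝ) : ℂ) * Complex.I by
    push_cast; ring]
  exact Complex.norm_exp_ofReal_mul_I _

theorem ee_add (s t : ℝ) : ee (s + t) = ee s * ee t := by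
  unfold ee
  rw [← Complex.exp_add]
  congr 1
  push_cast
  ring

theorem ee_neg (t : ℝ) : ee (-t) * ee t = 1 := by
  rw [← ee_add, neg_add_cancel]
  simp [ee]

theorem cos_ee (t : ℝ) : ((Real.cos (2 * Real.pi * t) : ℝ) : ℂ) = (ee t + ee (-t)) / 2 := by
  unfold ee
  rw [Complex.ofReal_cos, Complex.cos]
  congr 2
  · congr 1
    push_cast
    ring
  · congr 1
    push_cast
    ring

theorem continuous_ee : Continuous ee := by
  unfold ee
  fun_prop

theorem hasDerivAt_ee (p : ℝ[X]) (x : ℝ) :
    HasDerivAt (fun x : ℝ => ee (p.eval x)) (2 * Real.pi * Complex.I *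
      (p.derivative.eval x : ℝ) * ee (p.eval x)) x := by
  have h1 : HasDerivAt (fun x : ℝ => ((p.eval x : ℝ) : ℂ)) ((p.derivative.eval x : ℝ) : ℂ) x :=
    (p.hasDerivAt x).ofReal_comp
  have h2 := (h1.const_mul (2 * (Real.pi : ℂ) * Complex.I)).cexp
  convert! h2 using 1
  unfold ee
  ring

/-- The first derivative test. -/
theorem vc (p : ℝ[X]) (a b D : ℝ) (hab : a ≤ b) (hD : 0 < D)
    (h1 : ∀ x ∈ Set.Icc a b, D ≤ p.derivative.eval x)
    (h2 : ∀ x ∈ Set.Icc a b, 0 ≤ p.derivative.derivative.eval x) :
    ‖∫ x in a..b, ee (p.eval x)‖ ≤ 1 / (Real.pi * D) := by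
  have hpi := Real.pi_pos
  set u : ℝ → ℂ := fun x => ((1 / (p.derivative.eval x) : ℝ) : ℂ) / (2 * Real.pi * Complex.I) with hu
  set u' : ℝ → ℂ := fun x => ((-(p.derivative.derivative.eval x) / (p.derivative.eval x) ^ 2 : ℝ) : ℂ) /
    (2 * Real.pi * Complex.I) with hu'
  have hI : (2 * (Real.pi : ℂ) * Complex.I) ≠ 0 := by
    simp [Real.pi_ne_zero, Complex.I_ne_zero]
  have hpos : ∀ x ∈ Set.uIcc a b, 0 < p.derivative.eval x := by
    intro x hx
    rw [Set.uIcc_of_le hab] at hx
    exact hD.trans_le (h1 x hx)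
  have hdu : ∀ x ∈ Set.uIcc a b, HasDerivAt u (u' x) x := by
    intro x hx
    have h3 := (p.derivative.hasDerivAt x).inv (hpos x hx).ne'
    have h4 := h3.ofReal_comp.div_const (2 * (Real.pi : ℂ) * Complex.I)
    simp only [hu, hu', one_div]
    exact h4
  have hdv : ∀ x ∈ Set.uIcc a b, HasDerivAt (fun x : ℝ => ee (p.eval x)) (2 * Real.pi * Complex.I *
      (p.derivative.eval x : ℝ) * ee (p.eval x)) x := fun x _ => hasDerivAt_ee p x
  have hcu' : ContinuousOn u' (Set.uIcc a b) := by
    simp only [hu']
    apply ContinuousOn.div_const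
    apply Complex.continuous_ofReal.comp_continuousOn
    apply ContinuousOn.div
    · exact (p.derivative.derivative.continuous).neg.continuousOn
    · exact (p.derivative.continuous.pow 2).continuousOn
    · intro x hx
      exact pow_ne_zero _ (hpos x hx).ne'
  have hcv' : Continuous (fun x : ℝ => (2 * Real.pi * Complex.I *
      (p.derivative.eval x : ℝ) * ee (p.eval x))) := by
    have h3 : Continuous (fun x : ℝ => ((p.derivative.eval x : ℝ) : ℂ)) :=
      Complex.continuous_ofReal.comp p.derivative.continuous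
    have h4 : Continuous (fun x : ℝ => ee (p.eval x)) := continuous_ee.comp p.continuous
    exact (continuous_const.mul h3).mul h4
  have hparts := intervalIntegral.integral_mul_deriv_eq_deriv_mul hdu hdv
    (hcu'.intervalIntegrable) (hcv'.intervalIntegrable a b)
  have hleft : ∀ x ∈ Set.uIcc a b, u x * (2 * Real.pi * Complex.I *
      (p.derivative.eval x : ℝ) * ee (p.eval x)) = ee (p.eval x) := by
    intro x hx
    have h3 := (hpos x hx).ne'
    simp only [hu]
    push_cast
    have h4 : ((p.derivative.eval x : ℝ) : ℂ) ≠ 0 := by exact_mod_cast h3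
    field_simp
  rw [intervalIntegral.integral_congr hleft] at hparts
  rw [hparts]
  have hnu : ∀ x ∈ Set.uIcc a b, ‖u x‖ = (1 / p.derivative.eval x) / (2 * Real.pi) := by
    intro x hx
    simp only [hu]
    rw [norm_div, Complex.norm_real, Real.norm_eq_abs, abs_of_pos (by have := hpos x hx; positivity)]
    congr 1
    simp [abs_of_pos hpi]
  have hnu' : ∀ x ∈ Set.uIcc a b, ‖u' x‖ =
      ((p.derivative.derivative.eval x) / (p.derivative.eval x) ^ 2) / (2 * Real.pi) := by
    intro x hx
    simp only [hu']
    have h5 : 0 ≤ p.derivative.derivative.eval x := h2 x (by rwa [Set.uIcc_of_le hab] at hx)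
    rw [norm_div, Complex.norm_real, Real.norm_eq_abs, neg_div, abs_neg,
      abs_of_nonneg (by positivity)]
    congr 1
    simp [abs_of_pos hpi]
  have hb1 : ‖∫ x in a..b, u' x * ee (p.eval x)‖ ≤
      ∫ x in a..b, ((p.derivative.derivative.eval x) / (p.derivative.eval x) ^ 2) / (2 * Real.pi) := by
    refine (intervalIntegral.norm_integral_le_integral_norm hab).trans (le_of_eq ?_)
    apply intervalIntegral.integral_congr
    intro x hx
    simp only
    rw [norm_mul, norm_ee, mul_one, hnu' x hx]
  have hb2 : ∫ x in a..b, ((p.derivative.derivative.eval x) / (p.derivative.eval x) ^ 2) /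
      (2 * Real.pi) = (1 / p.derivative.eval a - 1 / p.derivative.eval b) / (2 * Real.pi) := by
    rw [intervalIntegral.integral_div]
    congr 1
    have h3 : ∀ x ∈ Set.uIcc a b, HasDerivAt (fun x => -(p.derivative.eval x)⁻¹)
        ((p.derivative.derivative.eval x) / (p.derivative.eval x) ^ 2) x := by
      intro x hx
      have h4 := ((p.derivative.hasDerivAt x).inv (hpos x hx).ne').neg
      convert! h4 using 1
      ring
    rw [intervalIntegral.integral_eq_sub_of_hasDerivAt h3]
    · simp only [one_div]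
      ring
    · apply ContinuousOn.intervalIntegrable
      apply ContinuousOn.div
      · exact (p.derivative.derivative.continuous).continuousOn
      · exact (p.derivative.continuous.pow 2).continuousOn
      · intro x hx
        exact pow_ne_zero _ (hpos x hx).ne'
  have ha : a ∈ Set.uIcc a b := Set.left_mem_uIcc
  have hb : b ∈ Set.uIcc a b := Set.right_mem_uIcc
  have hpa : D ≤ p.derivative.eval a := h1 a ⟨le_rfl, hab⟩
  calc ‖u b * ee (p.eval b) - u a * ee (p.eval a) - ∫ x in a..b, u' x * ee (p.eval x)‖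
      ≤ ‖u b * ee (p.eval b)‖ + ‖u a * ee (p.eval a)‖ + ‖∫ x in a..b, u' x * ee (p.eval x)‖ := by
        refine (norm_sub_le _ _).trans ?_
        gcongr
        exact norm_sub_le _ _
    _ ≤ (1 / p.derivative.eval b) / (2 * Real.pi) + (1 / p.derivative.eval a) / (2 * Real.pi) +
        (1 / p.derivative.eval a - 1 / p.derivative.eval b) / (2 * Real.pi) := by
        rw [norm_mul, norm_mul, norm_ee, norm_ee, mul_one, mul_one, hnu b hb, hnu a ha]
        rw [← hb2]
        gcongr
    _ = 1 / (Real.pi * p.derivative.eval a) := by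
        field_simp
        ring
    _ ≤ 1 / (Real.pi * D) := by
        apply one_div_le_one_div_of_le (by positivity)
        exact mul_le_mul_of_nonneg_left hpa hpi.le

end Pool.Agent.Helper59.BE
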