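import Mathlib
import Pool.Agent.Helper59.BE.Vc

/-!
The mass of the Riesz product `∏ (1 + c cos 2π (m x^(n+1) + φ n))`.
-/

namespace Pool.Agent.Helper59.BE

open Polynomial MeasureTheory intervalIntegral Complex Finset
open scoped Interval

/-- The phases. -/
noncomputable def th (m : ℝ) (φ : ℕ → ℝ) (n : ℕ) : ℝ[X] := C (φ n) + C m * X ^ (n + 1)

/-- The Riesz product. -/
noncomputable def Fp (c m : ℝ) (φ : ℕ → ℝ) (N : ℕ) (x : ℝ) : ℝ :=
  ∏ n ∈ range N, (1 + c * Real.cos (2 * Real.pi * (th m φ n).eval x))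

theorem th_deriv (m : ℝ) (φ : ℕ → ℝ) (n : ℕ) (x : ℝ) :
    (th m φ n).derivative.eval x = m * (n + 1) * x ^ n := by
  unfold th
  simp
  ring

theorem th_deriv2 (m : ℝ) (φ : ℕ → ℝ) (n : ℕ) (x : ℝ) :
    (th m φ n).derivative.derivative.eval x = m * (n + 1) * (n * x ^ (n - 1)) := by
  unfold th
  rw [derivative_add, derivative_C, zero_add, derivative_C_mul, derivative_X_pow]
  rw [Nat.add_sub_cancel, derivative_C_mul, derivative_C_mul, derivative_X_pow]
  simp only [eval_mul, eval_C, eval_pow, eval_X]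
  push_cast
  ring

theorem Fp_succ (c m : ℝ) (φ : ℕ → ℝ) (N : ℕ) (x : ℝ) :
    Fp c m φ (N + 1) x = Fp c m φ N x * (1 + c * Real.cos (2 * Real.pi * (th m φ N).eval x)) := by
  unfold Fp
  rw [prod_range_succ]

theorem Fp_continuous (c m : ℝ) (φ : ℕ → ℝ) (N : ℕ) : Continuous (Fp c m φ N) := by
  unfold Fp
  apply continuous_finsetProd
  intro n _
  have := (th m φ n).continuous
  fun_prop

theorem Fp_nonneg {c m : ℝ} (hc0 : 0 ≤ c) (hc1 : c ≤ 1) (φ : ℕ → ℝ) (N : ℕ) (x : ℝ) :
    0 ≤ Fp c m φ N x := by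
  unfold Fp
  apply prod_nonneg
  intro n _
  have h1 := Real.neg_one_le_cos (2 * Real.pi * (th m φ n).eval x)
  nlinarith

theorem mass_step {a b c m : ℝ} (hab : a ≤ b) (ha : 0 ≤ a) (hc0 : 0 ≤ c) (hm : 0 ≤ m) (φ : ℕ → ℝ)
    (N : ℕ) : ∀ (p : ℝ[X]) (D : ℝ), 0 < D →
    (∀ x ∈ Set.Icc a b, D + ∑ n ∈ range N, m * (n + 1) * x ^ n ≤ p.derivative.eval x) →
    (∀ x ∈ Set.Icc a b, ∑ n ∈ range N, m * (n + 1) * (n * x ^ (n - 1)) ≤
      p.derivative.derivative.eval x) →
    ‖∫ x in a..b, (Fp c m φ N x : ℂ) * ee (p.eval x)‖ ≤ (1 + c) ^ N / (Real.pi * D) := by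
  induction N with
  | zero =>
    intro p D hD h1 h2
    simp only [range_zero, sum_empty, add_zero] at h1 h2
    simpa [Fp] using vc p a b D hab hD h1 h2
  | succ N ih =>
    intro p D hD h1 h2
    have hpi := Real.pi_pos
    have hx0 : ∀ x ∈ Set.Icc a b, 0 ≤ x := fun x hx => ha.trans hx.1
    have i0 := ih p D hD (fun x hx => by
      have := h1 x hx
      rw [sum_range_succ] at this
      have h3 : 0 ≤ m * (N + 1) * x ^ N := by have := hx0 x hx; positivity
      linarith) (fun x hx => by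
      have := h2 x hx
      rw [sum_range_succ] at this
      have h3 : 0 ≤ m * (N + 1) * (N * x ^ (N - 1)) := by have := hx0 x hx; positivity
      linarith)
    have i1 := ih (p + th m φ N) D hD (fun x hx => by
      have := h1 x hx
      rw [sum_range_succ] at this
      have h3 : 0 ≤ m * (N + 1) * x ^ N := by have := hx0 x hx; positivity
      rw [derivative_add, eval_add, th_deriv]
      linarith) (fun x hx => by
      have := h2 x hx
      rw [sum_range_succ] at this
      have h3 : 0 ≤ m * (N + 1) * (N * x ^ (N - 1)) := by have := hx0 x hx; positivity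
      rw [derivative_add, derivative_add, eval_add, th_deriv2]
      linarith)
    have i2 := ih (p - th m φ N) D hD (fun x hx => by
      have := h1 x hx
      rw [sum_range_succ] at this
      rw [derivative_sub, eval_sub, th_deriv]
      linarith) (fun x hx => by
      have := h2 x hx
      rw [sum_range_succ] at this
      rw [derivative_sub, derivative_sub, eval_sub, th_deriv2]
      linarith)
    have hcF := Fp_continuous c m φ N
    have hint : ∀ q : ℝ[X], IntervalIntegrable (fun x => (Fp c m φ N x : ℂ) * ee (q.eval x))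
        volume a b := by
      intro q
      apply Continuous.intervalIntegrable
      exact (Complex.continuous_ofReal.comp hcF).mul (continuous_ee.comp q.continuous)
    have hsplit : ∀ x : ℝ, (Fp c m φ (N + 1) x : ℂ) * ee (p.eval x) =
        (Fp c m φ N x : ℂ) * ee (p.eval x) + ((c / 2 : ℝ) : ℂ) *
          ((Fp c m φ N x : ℂ) * ee ((p + th m φ N).eval x)) + ((c / 2 : ℝ) : ℂ) *
          ((Fp c m φ N x : ℂ) * ee ((p - th m φ N).eval x)) := by
      intro x
      rw [Fp_succ, eval_add, eval_sub, sub_eq_add_neg, ee_add, ee_add]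
      have hc := cos_ee ((th m φ N).eval x)
      rw [Complex.ofReal_mul, Complex.ofReal_add, Complex.ofReal_mul c, hc]
      push_cast
      ring
    rw [intervalIntegral.integral_congr (fun x _ => hsplit x),
      intervalIntegral.integral_add (by
        apply IntervalIntegrable.add (hint p)
        exact (hint _).const_mul _) ((hint _).const_mul _),
      intervalIntegral.integral_add (hint p) ((hint _).const_mul _),
      intervalIntegral.integral_const_mul, intervalIntegral.integral_const_mul]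
    have hcn : ‖((c / 2 : ℝ) : ℂ)‖ = c / 2 := by
      rw [Complex.norm_real, Real.norm_eq_abs, abs_of_nonneg (by positivity)]
    calc _ ≤ ‖∫ x in a..b, (Fp c m φ N x : ℂ) * ee (p.eval x)‖ +
          ‖((c / 2 : ℝ) : ℂ) * ∫ x in a..b, (Fp c m φ N x : ℂ) * ee ((p + th m φ N).eval x)‖ +
          ‖((c / 2 : ℝ) : ℂ) * ∫ x in a..b, (Fp c m φ N x : ℂ) * ee ((p - th m φ N).eval x)‖ := by
          refine (norm_add_le _ _).trans ?_
          gcongr
          exact norm_add_le _ _
      _ ≤ (1 + c) ^ N / (Real.pi * D) + c / 2 * ((1 + c) ^ N / (Real.pi * D)) +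
          c / 2 * ((1 + c) ^ N / (Real.pi * D)) := by
          rw [norm_mul, norm_mul, hcn]
          gcongr
      _ = (1 + c) ^ (N + 1) / (Real.pi * D) := by
          field_simp
          ring

theorem geom_dom (N : ℕ) (x : ℝ) (hx : 2 ≤ x) :
    x ^ N + ∑ n ∈ range N, ((n : ℝ) + 1) * x ^ n ≤ (N + 1) * x ^ N := by
  have h1 : ∑ n ∈ range N, ((n : ℝ) + 1) * x ^ n ≤ ∑ n ∈ range N, (N : ℝ) * x ^ n := by
    apply sum_le_sum
    intro n hn
    have hn' : ((n : ℝ) + 1) ≤ N := by
      exact_mod_cast (mem_range.mp hn)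
    apply mul_le_mul_of_nonneg_right hn' (by positivity)
  have h2 : ∑ n ∈ range N, x ^ n ≤ x ^ N := by
    have h3 := geom_sum_mul x N
    have h4 : 0 ≤ ∑ n ∈ range N, x ^ n := sum_nonneg (fun n _ => by positivity)
    nlinarith
  rw [← mul_sum] at h1
  have : (N : ℝ) * ∑ n ∈ range N, x ^ n ≤ N * x ^ N := mul_le_mul_of_nonneg_left h2 (by positivity)
  linarith

theorem geom_dom2 (N : ℕ) (x : ℝ) (hx : 2 ≤ x) :
    ∑ n ∈ range N, ((n : ℝ) + 1) * (n * x ^ (n - 1)) ≤ (N + 1) * (N * x ^ (N - 1)) := by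
  rcases N with _ | N
  · simp
  have h1 : ∑ n ∈ range (N + 1), ((n : ℝ) + 1) * (n * x ^ (n - 1)) ≤
      ∑ n ∈ range N, ((N : ℝ) + 2) * ((N + 1) * x ^ n) := by
    rw [sum_range_succ']
    simp only [Nat.cast_zero, zero_mul, mul_zero, add_zero, Nat.add_sub_cancel]
    apply sum_le_sum
    intro n hn
    have hn' : ((n : ℝ) + 1) ≤ N := by
      exact_mod_cast (mem_range.mp hn)
    push_cast
    apply mul_le_mul _ _ (by positivity) (by positivity)
    · linarith
    · apply mul_le_mul_of_nonneg_right _ (by positivity)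
      linarith
  have h2 : ∑ n ∈ range N, x ^ n ≤ x ^ N := by
    have h3 := geom_sum_mul x N
    have h4 : 0 ≤ ∑ n ∈ range N, x ^ n := sum_nonneg (fun n _ => by positivity)
    nlinarith
  have h5 : ∑ n ∈ range N, ((N : ℝ) + 2) * ((N + 1) * x ^ n) =
      ((N : ℝ) + 2) * (N + 1) * ∑ n ∈ range N, x ^ n := by
    rw [mul_sum]
    apply sum_congr rfl
    intro n _
    ring
  rw [h5] at h1
  push_cast
  calc _ ≤ ((N : ℝ) + 2) * (N + 1) * ∑ n ∈ range N, x ^ n := h1
    _ ≤ ((N : ℝ) + 2) * (N + 1) * x ^ N := mul_le_mul_of_nonneg_left h2 (by positivity)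
    _ = _ := by ring

/-- The increment of the mass. -/
theorem mass_inc {a b c m : ℝ} (ha : 2 ≤ a) (hab : a ≤ b) (hc0 : 0 ≤ c) (hm : 1 ≤ m) (φ : ℕ → ℝ)
    (N : ℕ) : ∫ x in a..b, Fp c m φ (N + 1) x ≤
      (∫ x in a..b, Fp c m φ N x) + c / Real.pi * ((1 + c) / a) ^ N := by
  have hpi := Real.pi_pos
  have ha0 : 0 < a := by linarith
  have hd1 : ∀ x ∈ Set.Icc a b, a ^ N + ∑ n ∈ range N, m * (n + 1) * x ^ n ≤
      (th m φ N).derivative.eval x := by
    intro x hx
    rw [th_deriv]
    have h1 := geom_dom N x (ha.trans hx.1)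
    have h2 : ∑ n ∈ range N, m * ((n : ℝ) + 1) * x ^ n = m * ∑ n ∈ range N, ((n : ℝ) + 1) * x ^ n := by
      rw [mul_sum]
      apply sum_congr rfl
      intro n _
      ring
    rw [h2]
    have h3 : a ^ N ≤ x ^ N := pow_le_pow_left₀ ha0.le hx.1 N
    have h4 : x ^ N ≤ m * x ^ N :=
      le_mul_of_one_le_left (pow_nonneg (ha0.le.trans hx.1) N) hm
    nlinarith
  have hd2 : ∀ x ∈ Set.Icc a b, ∑ n ∈ range N, m * (n + 1) * (n * x ^ (n - 1)) ≤
      (th m φ N).derivative.derivative.eval x := by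
    intro x hx
    rw [th_deriv2]
    have h1 := geom_dom2 N x (ha.trans hx.1)
    have h2 : ∑ n ∈ range N, m * ((n : ℝ) + 1) * (n * x ^ (n - 1)) =
        m * ∑ n ∈ range N, ((n : ℝ) + 1) * (n * x ^ (n - 1)) := by
      rw [mul_sum]
      apply sum_congr rfl
      intro n _
      ring
    rw [h2]
    nlinarith
  have hN := mass_step (c := c) hab ha0.le hc0 (by linarith : (0 : ℝ) ≤ m) φ N (th m φ N) (a ^ N)
    (by positivity) hd1 hd2
  have hcF := Fp_continuous c m φ N
  have hint1 : IntervalIntegrable (fun x => Fp c m φ N x) volume a b := hcF.intervalIntegrable _ _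
  have hcos : Continuous (fun x => Real.cos (2 * Real.pi * (th m φ N).eval x)) := by
    have := (th m φ N).continuous
    fun_prop
  have hint2 : IntervalIntegrable
      (fun x => Fp c m φ N x * (c * Real.cos (2 * Real.pi * (th m φ N).eval x))) volume a b :=
    (hcF.mul (continuous_const.mul hcos)).intervalIntegrable _ _
  have hsplit : ∀ x, Fp c m φ (N + 1) x = Fp c m φ N x +
      Fp c m φ N x * (c * Real.cos (2 * Real.pi * (th m φ N).eval x)) := by
    intro x
    rw [Fp_succ]
    ring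
  rw [intervalIntegral.integral_congr (fun x _ => hsplit x),
    intervalIntegral.integral_add hint1 hint2]
  have hre : ∫ x in a..b, Fp c m φ N x * (c * Real.cos (2 * Real.pi * (th m φ N).eval x)) =
      c * (∫ x in a..b, (Fp c m φ N x : ℂ) * ee ((th m φ N).eval x)).re := by
    have hi : IntervalIntegrable (fun x => (Fp c m φ N x : ℂ) * ee ((th m φ N).eval x)) volume a b := by
      apply Continuous.intervalIntegrable
      exact (Complex.continuous_ofReal.comp hcF).mul (continuous_ee.comp (th m φ N).continuous)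
    have h1 := Complex.reCLM.intervalIntegral_comp_comm hi
    simp only [Complex.reCLM_apply] at h1
    rw [← h1, ← intervalIntegral.integral_const_mul]
    apply intervalIntegral.integral_congr
    intro x _
    simp only
    rw [Complex.re_ofReal_mul]
    have : (ee ((th m φ N).eval x)).re = Real.cos (2 * Real.pi * (th m φ N).eval x) := by
      unfold ee
      rw [show (2 * (Real.pi : ℂ) * Complex.I * ((th m φ N).eval x : ℝ)) =
        ((2 * Real.pi * (th m φ N).eval x : ℝ) : ℂ) * Complex.I by push_cast; ring]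
      exact Complex.exp_ofReal_mul_I_re _
    rw [this]
    ring
  rw [hre]
  have h3 := (Complex.re_le_norm (∫ x in a..b, (Fp c m φ N x : ℂ) * ee ((th m φ N).eval x))).trans hN
  have h4 : c * (∫ x in a..b, (Fp c m φ N x : ℂ) * ee ((th m φ N).eval x)).re ≤
      c * ((1 + c) ^ N / (Real.pi * a ^ N)) := mul_le_mul_of_nonneg_left h3 hc0
  have h5 : c * ((1 + c) ^ N / (Real.pi * a ^ N)) = c / Real.pi * ((1 + c) / a) ^ N := by
    rw [div_pow]
    field_simp
  linarith

/-- The mass is bounded. -/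
theorem mass_le {a b c m : ℝ} (ha : 2 ≤ a) (hab : a ≤ b) (hc0 : 0 ≤ c) (hc1 : c < 1) (hm : 1 ≤ m)
    (φ : ℕ → ℝ) : ∃ K : ℝ, 0 < K ∧ ∀ N, ∫ x in a..b, Fp c m φ N x ≤ K := by
  have hpi := Real.pi_pos
  set q : ℝ := (1 + c) / a with hq
  have hq0 : 0 ≤ q := by positivity
  have hq1 : q < 1 := by
    rw [hq, div_lt_one (by linarith)]
    linarith
  refine ⟨(b - a) + c / Real.pi * (1 - q)⁻¹ + 1, ?_, ?_⟩
  · have : 0 ≤ (1 - q)⁻¹ := by
      apply inv_nonneg.mpr
      linarith
    have h2 : 0 ≤ c / Real.pi * (1 - q)⁻¹ := by positivity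
    linarith
  · intro N
    have h1 : ∀ N, ∫ x in a..b, Fp c m φ N x ≤ (b - a) + c / Real.pi * ∑ n ∈ range N, q ^ n := by
      intro N
      induction N with
      | zero => simp [Fp]
      | succ N ih =>
        have := mass_inc ha hab hc0 hm φ N (b := b)
        rw [sum_range_succ, mul_add]
        linarith
    refine (h1 N).trans ?_
    have h2 : ∑ n ∈ range N, q ^ n ≤ (1 - q)⁻¹ := by
      rw [← tsum_geometric_of_lt_one hq0 hq1]
      exact (summable_geometric_of_lt_one hq0 hq1).sum_le_tsum _ (fun n _ => by positivity)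
    have h3 : c / Real.pi * ∑ n ∈ range N, q ^ n ≤ c / Real.pi * (1 - q)⁻¹ :=
      mul_le_mul_of_nonneg_left h2 (by positivity)
    linarith

end Pool.Agent.Helper59.BE
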