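import Mathlib
import Pool.Agent.Helper59.BE.Mass
import Pool.Agent.Helper59.BE.Cover

/-!
Upper bound of the dimension of the set of `x` for which the product
`∏ (1 + c cos 2π (m x^(n+1) + φ n))` grows exponentially.
-/

namespace Pool.Agent.Helper59.BE

open Polynomial MeasureTheory Filter Set
open scoped ENNReal Topology

theorem th_eval (m : ℝ) (φ : ℕ → ℝ) (n : ℕ) (x : ℝ) :
    (th m φ n).eval x = φ n + m * x ^ (n + 1) := by
  simp [th]

theorem factor_var {c : ℝ} (hc0 : 0 ≤ c) (hc1 : c < 1) (u v : ℝ) :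
    1 + c * Real.cos u ≤ Real.exp (c / (1 - c) * |u - v|) * (1 + c * Real.cos v) := by
  have h1 : 0 < 1 - c := by linarith
  have h2 := Real.neg_one_le_cos v
  have h3 : 1 - c ≤ 1 + c * Real.cos v := by nlinarith
  have h4 : |Real.cos u - Real.cos v| ≤ |u - v| := by
    have := Real.abs_cos_sub_cos_le u v
    exact this
  have h5 : Real.cos u ≤ Real.cos v + |u - v| := by
    have := le_abs_self (Real.cos u - Real.cos v)
    linarith
  have h6 : c / (1 - c) * |u - v| + 1 ≤ Real.exp (c / (1 - c) * |u - v|) := Real.add_one_le_exp _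
  calc 1 + c * Real.cos u ≤ (1 + c * Real.cos v) + c * |u - v| := by nlinarith
    _ = (1 + c * Real.cos v) + c / (1 - c) * |u - v| * (1 - c) := by
        field_simp
    _ ≤ (1 + c * Real.cos v) + c / (1 - c) * |u - v| * (1 + c * Real.cos v) := by
        gcongr
    _ = (c / (1 - c) * |u - v| + 1) * (1 + c * Real.cos v) := by ring
    _ ≤ _ := by
        apply mul_le_mul_of_nonneg_right h6
        linarith

theorem pow_var {b x y : ℝ} (hb : 1 ≤ b) (hx0 : 0 ≤ x) (hx : x ≤ b) (hy0 : 0 ≤ y) (hy : y ≤ b)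
    (n : ℕ) : |x ^ (n + 1) - y ^ (n + 1)| ≤ (n + 1) * b ^ n * |x - y| := by
  induction n with
  | zero => simp
  | succ n ih =>
    have h1 : x ^ (n + 1 + 1) - y ^ (n + 1 + 1) = x * (x ^ (n + 1) - y ^ (n + 1)) +
        (x - y) * y ^ (n + 1) := by ring
    rw [h1]
    have h2 : y ^ (n + 1) ≤ b ^ (n + 1) := pow_le_pow_left₀ hy0 hy _
    calc _ ≤ |x * (x ^ (n + 1) - y ^ (n + 1))| + |(x - y) * y ^ (n + 1)| := abs_add_le _ _
      _ = x * |x ^ (n + 1) - y ^ (n + 1)| + |x - y| * y ^ (n + 1) := by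
          rw [abs_mul, abs_mul, abs_of_nonneg hx0, abs_of_nonneg (pow_nonneg hy0 _)]
      _ ≤ b * ((n + 1) * b ^ n * |x - y|) + |x - y| * b ^ (n + 1) := by
          have h3 := abs_nonneg (x - y)
          have h4 := abs_nonneg (x ^ (n + 1) - y ^ (n + 1))
          gcongr
      _ = _ := by
          push_cast
          ring

theorem Fp_var {a b c m : ℝ} (ha : 1 ≤ a) (hab : a ≤ b) (hc0 : 0 ≤ c) (hc1 : c < 1) (hm : 0 ≤ m)
    (φ : ℕ → ℝ) (N : ℕ) {x y : ℝ} (hx : x ∈ Icc a b) (hy : y ∈ Icc a b)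
    (hxy : |x - y| ≤ (b - a) / (b ^ N * (N + 1) ^ 2)) :
    Fp c m φ N x ≤ Real.exp (c / (1 - c) * (2 * Real.pi * m * (b - a))) * Fp c m φ N y := by
  have hb : 1 ≤ b := ha.trans hab
  have hpi := Real.pi_pos
  have hL : 0 ≤ c / (1 - c) := div_nonneg hc0 (by linarith)
  have h1 : ∀ N : ℕ, Fp c m φ N x ≤ Real.exp (c / (1 - c) * (2 * Real.pi * m *
      (∑ n ∈ Finset.range N, ((n : ℝ) + 1) * b ^ n) * |x - y|)) * Fp c m φ N y := by
    intro N
    induction N with
    | zero => simp [Fp]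
    | succ N ih =>
      rw [Fp_succ, Fp_succ, Finset.sum_range_succ]
      have h2 := factor_var hc0 hc1 (2 * Real.pi * (th m φ N).eval x)
        (2 * Real.pi * (th m φ N).eval y)
      have h3 : |2 * Real.pi * (th m φ N).eval x - 2 * Real.pi * (th m φ N).eval y| ≤
          2 * Real.pi * m * ((N + 1) * b ^ N * |x - y|) := by
        rw [th_eval, th_eval, show 2 * Real.pi * (φ N + m * x ^ (N + 1)) -
          2 * Real.pi * (φ N + m * y ^ (N + 1)) = 2 * Real.pi * m * (x ^ (N + 1) - y ^ (N + 1)) by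
          ring, abs_mul, abs_of_nonneg (by positivity : 0 ≤ 2 * Real.pi * m)]
        apply mul_le_mul_of_nonneg_left _ (by positivity)
        exact pow_var hb (by linarith [hx.1]) hx.2 (by linarith [hy.1]) hy.2 N
      have h4 : 0 ≤ 1 + c * Real.cos (2 * Real.pi * (th m φ N).eval y) := by
        have := Real.neg_one_le_cos (2 * Real.pi * (th m φ N).eval y)
        nlinarith
      have h5 : 1 + c * Real.cos (2 * Real.pi * (th m φ N).eval x) ≤
          Real.exp (c / (1 - c) * (2 * Real.pi * m * ((N + 1) * b ^ N * |x - y|))) *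
          (1 + c * Real.cos (2 * Real.pi * (th m φ N).eval y)) := by
        refine h2.trans ?_
        apply mul_le_mul_of_nonneg_right _ h4
        apply Real.exp_le_exp.mpr
        exact mul_le_mul_of_nonneg_left h3 hL
      have h6 : 0 ≤ 1 + c * Real.cos (2 * Real.pi * (th m φ N).eval x) := by
        have := Real.neg_one_le_cos (2 * Real.pi * (th m φ N).eval x)
        nlinarith
      have h7 := Fp_nonneg hc0 hc1.le (m := m) φ N y
      calc _ ≤ (Real.exp (c / (1 - c) * (2 * Real.pi * m *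
          (∑ n ∈ Finset.range N, ((n : ℝ) + 1) * b ^ n) * |x - y|)) * Fp c m φ N y) *
          (Real.exp (c / (1 - c) * (2 * Real.pi * m * ((N + 1) * b ^ N * |x - y|))) *
          (1 + c * Real.cos (2 * Real.pi * (th m φ N).eval y))) := by
            apply mul_le_mul ih h5 h6
            positivity
        _ = (Real.exp (c / (1 - c) * (2 * Real.pi * m *
          (∑ n ∈ Finset.range N, ((n : ℝ) + 1) * b ^ n) * |x - y|)) *
          Real.exp (c / (1 - c) * (2 * Real.pi * m * ((N + 1) * b ^ N * |x - y|)))) *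
          (Fp c m φ N y * (1 + c * Real.cos (2 * Real.pi * (th m φ N).eval y))) := by ring
        _ = _ := by
          rw [← Real.exp_add]
          congr 2
          ring
  refine (h1 N).trans ?_
  apply mul_le_mul_of_nonneg_right _ (Fp_nonneg hc0 hc1.le φ N y)
  apply Real.exp_le_exp.mpr
  apply mul_le_mul_of_nonneg_left _ hL
  have h2 : ∑ n ∈ Finset.range N, ((n : ℝ) + 1) * b ^ n ≤ b ^ N * (N + 1) ^ 2 := by
    calc ∑ n ∈ Finset.range N, ((n : ℝ) + 1) * b ^ n ≤
        ∑ n ∈ Finset.range N, ((N : ℝ) + 1) * b ^ N := by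
          apply Finset.sum_le_sum
          intro n hn
          have hn' := Finset.mem_range.mp hn
          have h3 : (n : ℝ) + 1 ≤ N + 1 := by
            have : (n : ℝ) ≤ N := by exact_mod_cast hn'.le
            linarith
          have h4 : b ^ n ≤ b ^ N := pow_le_pow_right₀ hb hn'.le
          gcongr
      _ = N * (((N : ℝ) + 1) * b ^ N) := by simp
      _ ≤ (N + 1) * (((N : ℝ) + 1) * b ^ N) := by
          gcongr
          linarith
      _ = _ := by ring
  have hb0 : 0 < b ^ N * ((N : ℝ) + 1) ^ 2 := by positivity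
  calc 2 * Real.pi * m * (∑ n ∈ Finset.range N, ((n : ℝ) + 1) * b ^ n) * |x - y| ≤
      2 * Real.pi * m * (b ^ N * (N + 1) ^ 2) * ((b - a) / (b ^ N * (N + 1) ^ 2)) := by
        gcongr
    _ = _ := by
        field_simp

theorem lim_aux {b d H : ℝ} (hb : 1 < b) (hd0 : 0 < d) (hd1 : d < 1)
    (hH : (1 - d) * Real.log b < H) :
    Tendsto (fun N : ℕ => (((⌈b ^ N * ((N : ℝ) + 1) ^ 2⌉₊ : ℕ) : ℝ)) ^ (1 - d) *
      Real.exp (-(N * H))) atTop (𝓝 0) := by
  set η := H - (1 - d) * Real.log b with hη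
  have hη0 : 0 < η := by rw [hη]; linarith
  set r := Real.exp (-η) with hr
  have hr0 : 0 < r := Real.exp_pos _
  have hr1 : r < 1 := by
    rw [hr, ← Real.exp_zero]
    exact Real.exp_lt_exp.mpr (by linarith)
  have h1 : Tendsto (fun N : ℕ => (N : ℝ) ^ 2 * r ^ N) atTop (𝓝 0) :=
    tendsto_pow_const_mul_const_pow_of_abs_lt_one 2 (by rw [abs_of_pos hr0]; exact hr1)
  have h2 : Tendsto (fun N : ℕ => ((N + 1 : ℕ) : ℝ) ^ 2 * r ^ (N + 1)) atTop (𝓝 0) :=
    h1.comp (tendsto_add_atTop_nat 1)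
  have h3 := h2.const_mul (2 * r⁻¹)
  rw [mul_zero] at h3
  refine squeeze_zero (fun N => by positivity) (fun N => ?_) h3
  have hb0 : 0 < b := by linarith
  have hbN : 1 ≤ b ^ N := one_le_pow₀ hb.le
  have hx0 : 1 ≤ b ^ N * ((N : ℝ) + 1) ^ 2 := by
    have : (1 : ℝ) ≤ ((N : ℝ) + 1) ^ 2 := by nlinarith [(Nat.cast_nonneg N : (0 : ℝ) ≤ N)]
    nlinarith
  have h4 : ((⌈b ^ N * ((N : ℝ) + 1) ^ 2⌉₊ : ℕ) : ℝ) ≤ (2 * ((N : ℝ) + 1) ^ 2) * b ^ N := by
    have := Nat.ceil_lt_add_one (by linarith : 0 ≤ b ^ N * ((N : ℝ) + 1) ^ 2)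
    linarith
  have h5 : (1 : ℝ) ≤ 2 * ((N : ℝ) + 1) ^ 2 := by
    nlinarith [(Nat.cast_nonneg N : (0 : ℝ) ≤ N)]
  have h6 : (2 * ((N : ℝ) + 1) ^ 2) ^ (1 - d) ≤ 2 * ((N : ℝ) + 1) ^ 2 := by
    calc (2 * ((N : ℝ) + 1) ^ 2) ^ (1 - d) ≤ (2 * ((N : ℝ) + 1) ^ 2) ^ (1 : ℝ) :=
          Real.rpow_le_rpow_of_exponent_le h5 (by linarith)
      _ = _ := Real.rpow_one _
  have h7 : (b ^ N) ^ (1 - d) * Real.exp (-(N * H)) = r ^ N := by
    rw [hr, ← Real.exp_nat_mul, ← Real.rpow_natCast b N, ← Real.rpow_mul hb0.le,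
      Real.rpow_def_of_pos hb0, ← Real.exp_add]
    congr 1
    rw [hη]
    ring
  calc _ ≤ ((2 * ((N : ℝ) + 1) ^ 2) * b ^ N) ^ (1 - d) * Real.exp (-(N * H)) := by
        apply mul_le_mul_of_nonneg_right _ (Real.exp_pos _).le
        apply Real.rpow_le_rpow (by positivity) h4 (by linarith)
    _ = (2 * ((N : ℝ) + 1) ^ 2) ^ (1 - d) * ((b ^ N) ^ (1 - d) * Real.exp (-(N * H))) := by
        rw [Real.mul_rpow (by positivity) (by positivity)]
        ring
    _ = (2 * ((N : ℝ) + 1) ^ 2) ^ (1 - d) * r ^ N := by rw [h7]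
    _ ≤ (2 * ((N : ℝ) + 1) ^ 2) * r ^ N := by
        apply mul_le_mul_of_nonneg_right h6 (by positivity)
    _ = _ := by
        push_cast
        field_simp
        ring

theorem upper_measure {a b c m : ℝ} (ha : 2 ≤ a) (hab : a < b) (hc0 : 0 ≤ c) (hc1 : c < 1)
    (hm : 1 ≤ m) (φ : ℕ → ℝ) {d H : ℝ} (hd0 : 0 < d) (hd1 : d < 1)
    (hH : (1 - d) * Real.log b < H) :
    μH[d] {x | x ∈ Icc a b ∧ ∀ᶠ N : ℕ in atTop, Real.exp (N * H) ≤ Fp c m φ N x} = 0 := by
  obtain ⟨K, hK0, hK⟩ := mass_le ha hab.le hc0 hc1 hm φ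
  have hb : 1 < b := by linarith
  refine cover hab (Fp_continuous c m φ) (Fp_nonneg hc0 hc1.le φ) hK
    (C := Real.exp (c / (1 - c) * (2 * Real.pi * m * (b - a)))) (Real.exp_pos _)
    (q := fun N => ⌈b ^ N * ((N : ℝ) + 1) ^ 2⌉₊) (fun N => ?_) (fun N x hx y hy hxy => ?_)
    hd0 (lim_aux hb hd0 hd1 hH) ?_
  · apply Nat.ceil_pos.mpr
    positivity
  · apply Fp_var (by linarith) hab.le hc0 hc1 (by linarith) φ N hx hy
    refine hxy.trans ?_
    apply div_le_div_of_nonneg_left (by linarith) (by positivity) (Nat.le_ceil _)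
  · apply tendsto_atTop_mono (fun N => Nat.le_ceil _)
    apply tendsto_atTop_mono (f := fun N : ℕ => (N : ℝ))
    · intro N
      have h1 : 1 ≤ b ^ N := one_le_pow₀ hb.le
      have h2 : (0 : ℝ) ≤ N := Nat.cast_nonneg N
      have h3 : (N : ℝ) ≤ ((N : ℝ) + 1) ^ 2 := by nlinarith
      have h4 : (0 : ℝ) ≤ ((N : ℝ) + 1) ^ 2 := by positivity
      nlinarith
    · exact tendsto_natCast_atTop_atTop

/-- The upper bound for the dimension. -/
theorem upper {a b c m : ℝ} (ha : 2 ≤ a) (hab : a < b) (hc0 : 0 ≤ c) (hc1 : c < 1)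
    (hm : 1 ≤ m) (φ : ℕ → ℝ) (H : ℝ) :
    dimH {x | x ∈ Icc a b ∧ ∀ᶠ N : ℕ in atTop, (N : ℝ) * H ≤ ∑ n ∈ Finset.range N,
      Real.log (1 + c * Real.cos (2 * Real.pi * (φ n + m * x ^ (n + 1))))} ≤
      ENNReal.ofReal (1 - H / Real.log b) := by
  have hb : 1 < b := by linarith
  have hlb : 0 < Real.log b := Real.log_pos hb
  set S := {x | x ∈ Icc a b ∧ ∀ᶠ N : ℕ in atTop, (N : ℝ) * H ≤ ∑ n ∈ Finset.range N,
      Real.log (1 + c * Real.cos (2 * Real.pi * (φ n + m * x ^ (n + 1))))} with hS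
  apply ENNReal.le_of_forall_pos_le_add
  intro ε hε _
  set d : ℝ := max (1 - H / Real.log b) 0 + ε with hd
  have hεr : (0 : ℝ) < ε := by exact_mod_cast hε
  have hd0 : 0 < d := by
    have := le_max_right (1 - H / Real.log b) 0
    linarith
  have hdE : ENNReal.ofReal (1 - H / Real.log b) + ε = ENNReal.ofReal d := by
    rw [hd, ENNReal.ofReal_add (le_max_right _ _) hεr.le, ENNReal.ofReal_coe_nnreal]
    congr 1
    rcases le_total (1 - H / Real.log b) 0 with h | h
    · rw [max_eq_right h, ENNReal.ofReal_of_nonpos h, ENNReal.ofReal_zero]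
    · rw [max_eq_left h]
  rw [hdE]
  rcases le_or_gt 1 d with h1 | h1
  · have h2 : dimH S ≤ 1 := by
      calc dimH S ≤ dimH (univ : Set ℝ) := dimH_mono (subset_univ _)
        _ = 1 := Real.dimH_univ
    refine h2.trans ?_
    rw [← ENNReal.ofReal_one]
    exact ENNReal.ofReal_le_ofReal h1
  · have h3 : (1 - d) * Real.log b < H := by
      have h4 : 1 - H / Real.log b < d := by
        have := le_max_left (1 - H / Real.log b) 0
        linarith
      have h5 : 1 - d < H / Real.log b := by linarith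
      exact (lt_div_iff₀ hlb).mp h5
    have h6 := upper_measure ha hab hc0 hc1 hm φ hd0 h1 h3
    have h7 : S = {x | x ∈ Icc a b ∧ ∀ᶠ N : ℕ in atTop, Real.exp (N * H) ≤ Fp c m φ N x} := by
      rw [hS]
      ext x
      rw [mem_ofPred_eq, mem_ofPred_eq]
      refine and_congr_right fun hx => ?_
      apply eventually_congr
      refine Eventually.of_forall fun N => ?_
      have h8 : ∀ n, 0 < 1 + c * Real.cos (2 * Real.pi * (th m φ n).eval x) := by
        intro n
        have := Real.neg_one_le_cos (2 * Real.pi * (th m φ n).eval x)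
        nlinarith
      have h9 : Fp c m φ N x = Real.exp (∑ n ∈ Finset.range N,
          Real.log (1 + c * Real.cos (2 * Real.pi * (φ n + m * x ^ (n + 1))))) := by
        rw [Real.exp_sum]
        unfold Fp
        apply Finset.prod_congr rfl
        intro n _
        rw [← th_eval, Real.exp_log (h8 n)]
      rw [h9, Real.exp_le_exp]
    have h10 : dimH S ≤ ((Real.toNNReal d : NNReal) : ℝ≥0∞) := by
      apply dimH_le_of_hausdorffMeasure_ne_top
      rw [h7, Real.coe_toNNReal d hd0.le, h6]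
      exact ENNReal.zero_ne_top
    exact h10

end Pool.Agent.Helper59.BE
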