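import Mathlib
import Pool.Agent.Helper59.BE.Upper

/-!
Upper bound of the dimension of the set of `x` whose powers follow the law with density
`1 + c cos`.
-/

namespace Pool.Agent.Helper59.BE

open Filter Set
open scoped ENNReal Topology

/-- The Fourier series of `log (1 + ρ^2 + 2 ρ cos t)`. -/
theorem hasSum_log {ρ : ℝ} (h0 : 0 ≤ ρ) (h1 : ρ < 1) (t : ℝ) :
    HasSum (fun k : ℕ => 2 * ((-1) ^ (k + 1) * ρ ^ k / k) * Real.cos (k * t))
      (Real.log (1 + ρ ^ 2 + 2 * ρ * Real.cos t)) := by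
  set z : ℂ := ρ * Complex.exp (t * Complex.I) with hz
  have hzn : ‖z‖ < 1 := by
    rw [hz, norm_mul, Complex.norm_exp_ofReal_mul_I, mul_one, Complex.norm_real,
      Real.norm_eq_abs, abs_of_nonneg h0]
    exact h1
  have h2 := (Complex.hasSum_re (Complex.hasSum_taylorSeries_log hzn)).mul_left 2
  have h3 : ∀ k : ℕ, 2 * ((-1 : ℂ) ^ (k + 1) * z ^ k / k).re =
      2 * ((-1) ^ (k + 1) * ρ ^ k / k) * Real.cos (k * t) := by
    intro k
    have h4 : (-1 : ℂ) ^ (k + 1) * z ^ k / k =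
        (((-1) ^ (k + 1) * ρ ^ k / k : ℝ) : ℂ) * Complex.exp ((k * t : ℝ) * Complex.I) := by
      rw [hz, mul_pow, ← Complex.exp_nat_mul]
      push_cast
      rw [show (k : ℂ) * (t * Complex.I) = k * t * Complex.I by ring]
      ring
    rw [h4, Complex.re_ofReal_mul, Complex.exp_ofReal_mul_I_re]
    ring
  have h5 : 2 * (Complex.log (1 + z)).re = Real.log (1 + ρ ^ 2 + 2 * ρ * Real.cos t) := by
    rw [Complex.log_re]
    have h6 : ‖1 + z‖ ^ 2 = 1 + ρ ^ 2 + 2 * ρ * Real.cos t := by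
      have h7 : 1 + z = ((1 + ρ * Real.cos t : ℝ) : ℂ) + ((ρ * Real.sin t : ℝ) : ℂ) * Complex.I := by
        rw [hz, Complex.exp_mul_I]
        push_cast
        ring
      rw [h7, Complex.sq_norm, Complex.normSq_add_mul_I]
      have := Real.sin_sq_add_cos_sq t
      nlinarith
    rw [← h6, Real.log_pow]
    push_cast
    ring
  rw [← h5]
  convert! h2 using 1
  funext k
  exact (h3 k).symm

/-- The averages of `log (1 + ρ^2 + 2 ρ cos t_n)`. -/
theorem avg_log {ρ : ℝ} (h0 : 0 ≤ ρ) (h1 : ρ < 1) (t : ℕ → ℝ) (A : ℕ → ℝ)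
    (hA : ∀ k : ℕ, 1 ≤ k → Tendsto (fun N : ℕ => (∑ n ∈ Finset.range N, Real.cos (k * t n)) / N)
      atTop (𝓝 (A k))) :
    Tendsto (fun N : ℕ => (∑ n ∈ Finset.range N,
      Real.log (1 + ρ ^ 2 + 2 * ρ * Real.cos (t n))) / N) atTop
      (𝓝 (∑' k : ℕ, 2 * ((-1) ^ (k + 1) * ρ ^ k / k) * A k)) := by
  have h2 : ∀ N : ℕ, (∑ n ∈ Finset.range N, Real.log (1 + ρ ^ 2 + 2 * ρ * Real.cos (t n))) / N =
      ∑' k : ℕ, 2 * ((-1) ^ (k + 1) * ρ ^ k / k) *
        ((∑ n ∈ Finset.range N, Real.cos (k * t n)) / N) := by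
    intro N
    have h3 := (hasSum_sum (fun n (_ : n ∈ Finset.range N) => hasSum_log h0 h1 (t n))).div_const
      (N : ℝ)
    rw [← h3.tsum_eq]
    apply tsum_congr
    intro k
    rw [← Finset.mul_sum]
    ring
  simp_rw [h2]
  apply tendsto_tsum_of_dominated_convergence (bound := fun k => 2 * ρ ^ k)
  · exact (summable_geometric_of_lt_one h0 h1).mul_left 2
  · intro k
    rcases Nat.eq_zero_or_pos k with hk | hk
    · subst hk
      simp
    · exact (hA k hk).const_mul _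
  · refine Eventually.of_forall fun N k => ?_
    rw [Real.norm_eq_abs, abs_mul, abs_mul, abs_div, abs_mul, abs_pow, abs_neg, abs_one, one_pow,
      one_mul, abs_pow, abs_of_nonneg h0]
    have h3 : |(∑ n ∈ Finset.range N, Real.cos (k * t n)) / N| ≤ 1 := by
      rw [abs_div, Nat.abs_cast]
      apply div_le_one_of_le₀ _ (Nat.cast_nonneg N)
      calc |∑ n ∈ Finset.range N, Real.cos (k * t n)| ≤
          ∑ n ∈ Finset.range N, |Real.cos (k * t n)| := Finset.abs_sum_le_sum_abs _ _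
        _ ≤ ∑ n ∈ Finset.range N, (1 : ℝ) := Finset.sum_le_sum fun n _ => Real.abs_cos_le_one _
        _ = N := by simp
    have h4 : ρ ^ k / |(k : ℝ)| ≤ ρ ^ k := by
      rcases Nat.eq_zero_or_pos k with hk | hk
      · subst hk
        simp
      · rw [Nat.abs_cast]
        apply div_le_self (by positivity)
        exact_mod_cast hk
    have h5 : |(2 : ℝ)| = 2 := abs_of_pos (by norm_num)
    rw [h5]
    calc 2 * (ρ ^ k / |(k : ℝ)|) * |(∑ n ∈ Finset.range N, Real.cos (k * t n)) / N| ≤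
        2 * ρ ^ k * 1 := by gcongr
      _ = 2 * ρ ^ k := by ring

/-- The upper bound for the law `1 + c cos`, `c = 2 ρ / (1 + ρ^2)`. -/
theorem upper_law {a b m ρ : ℝ} (ha : 2 ≤ a) (hab : a < b) (hρ0 : 0 ≤ ρ) (hρ1 : ρ ≤ 1)
    (hm : 1 ≤ m) (φ : ℕ → ℝ) :
    dimH {x | x ∈ Icc a b ∧ ∀ k : ℕ, 1 ≤ k → Tendsto (fun N : ℕ => (∑ n ∈ Finset.range N,
      Real.cos (k * (2 * Real.pi * (φ n + m * x ^ (n + 1))))) / N) atTop
      (𝓝 (if k = 1 then ρ / (1 + ρ ^ 2) else 0))} ≤
      ENNReal.ofReal (1 - (2 * ρ ^ 2 / (1 + ρ ^ 2) - Real.log (1 + ρ ^ 2)) / Real.log b) := by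
  have hb : 1 < b := by linarith
  have hlb : 0 < Real.log b := Real.log_pos hb
  set S := {x | x ∈ Icc a b ∧ ∀ k : ℕ, 1 ≤ k → Tendsto (fun N : ℕ => (∑ n ∈ Finset.range N,
      Real.cos (k * (2 * Real.pi * (φ n + m * x ^ (n + 1))))) / N) atTop
      (𝓝 (if k = 1 then ρ / (1 + ρ ^ 2) else 0))} with hS
  set G : ℝ → ℝ := fun r => 2 * r * (ρ / (1 + ρ ^ 2)) - Real.log (1 + r ^ 2) with hG
  have hGρ : G ρ = 2 * ρ ^ 2 / (1 + ρ ^ 2) - Real.log (1 + ρ ^ 2) := by
    rw [hG]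
    simp only
    ring
  rw [← hGρ]
  have key : ∀ r : ℝ, 0 ≤ r → r < 1 → ∀ H < G r, dimH S ≤ ENNReal.ofReal (1 - H / Real.log b) := by
    intro r hr0 hr1 H hH
    have hc0 : 0 ≤ 2 * r / (1 + r ^ 2) := by positivity
    have hc1 : 2 * r / (1 + r ^ 2) < 1 := by
      rw [div_lt_one (by positivity)]
      nlinarith [sq_nonneg (1 - r), mul_pos (sub_pos.mpr hr1) (sub_pos.mpr hr1)]
    refine le_trans (dimH_mono ?_) (upper ha hab hc0 hc1 hm φ H)
    intro x hx
    refine ⟨hx.1, ?_⟩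
    have h2 := avg_log hr0 hr1 (fun n => 2 * Real.pi * (φ n + m * x ^ (n + 1)))
      (fun k => if k = 1 then ρ / (1 + ρ ^ 2) else 0) hx.2
    have h3 : ∑' k : ℕ, 2 * ((-1) ^ (k + 1) * r ^ k / k) *
        (if k = 1 then ρ / (1 + ρ ^ 2) else 0) = 2 * r * (ρ / (1 + ρ ^ 2)) := by
      rw [tsum_eq_single 1]
      · simp
      · intro k hk
        rw [if_neg hk, mul_zero]
    rw [h3] at h2
    have h4 : H + Real.log (1 + r ^ 2) < 2 * r * (ρ / (1 + ρ ^ 2)) := by
      simp only [hG] at hH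
      linarith
    have h5 := h2.eventually_const_lt h4
    filter_upwards [h5, eventually_gt_atTop 0] with N hN hN0
    have hNr : (0 : ℝ) < N := by exact_mod_cast hN0
    rw [lt_div_iff₀ hNr] at hN
    have h6 : ∀ n, Real.log (1 + 2 * r / (1 + r ^ 2) *
        Real.cos (2 * Real.pi * (φ n + m * x ^ (n + 1)))) =
        Real.log (1 + r ^ 2 + 2 * r * Real.cos (2 * Real.pi * (φ n + m * x ^ (n + 1)))) -
          Real.log (1 + r ^ 2) := by
      intro n
      have h7 := Real.neg_one_le_cos (2 * Real.pi * (φ n + m * x ^ (n + 1)))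
      have h8 : 0 < 1 + r ^ 2 + 2 * r * Real.cos (2 * Real.pi * (φ n + m * x ^ (n + 1))) := by
        nlinarith [mul_pos (sub_pos.mpr hr1) (sub_pos.mpr hr1)]
      rw [← Real.log_div h8.ne' (by positivity)]
      congr 1
      field_simp
    rw [Finset.sum_congr rfl (fun n _ => h6 n), Finset.sum_sub_distrib]
    simp only [Finset.sum_const, Finset.card_range, nsmul_eq_mul]
    nlinarith
  have hGc : Continuous G := by
    rw [hG]
    refine Continuous.sub (by fun_prop) ?_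
    exact Continuous.log (by fun_prop) (fun r => by positivity)
  have key2 : ∀ H < G ρ, dimH S ≤ ENNReal.ofReal (1 - H / Real.log b) := by
    intro H hH
    rcases hρ0.eq_or_lt with h | h
    · exact key ρ hρ0 (by linarith) H hH
    · have h9 : ∀ᶠ r in 𝓝[<] ρ, H < G r := by
        have : Tendsto G (𝓝[<] ρ) (𝓝 (G ρ)) := hGc.continuousAt.tendsto.mono_left inf_le_left
        exact this.eventually_const_lt hH
      have h10 : ∀ᶠ r in 𝓝[<] ρ, 0 < r := by
        have : ∀ᶠ r in 𝓝 ρ, 0 < r := lt_mem_nhds h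
        exact this.filter_mono inf_le_left
      have h11 : ∀ᶠ r in 𝓝[<] ρ, r < ρ := self_mem_nhdsWithin
      obtain ⟨r, hr1, hr2, hr3⟩ := (h9.and (h10.and h11)).exists
      exact key r hr2.le (by linarith) H hr1
  have hlim : Tendsto (fun H : ℝ => ENNReal.ofReal (1 - H / Real.log b)) (𝓝[<] (G ρ))
      (𝓝 (ENNReal.ofReal (1 - G ρ / Real.log b))) := by
    apply ENNReal.tendsto_ofReal
    apply Tendsto.mono_left _ inf_le_left
    apply Continuous.tendsto
    fun_prop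
  refine ge_of_tendsto hlim ?_
  filter_upwards [self_mem_nhdsWithin] with H hH
  exact key2 H hH

end Pool.Agent.Helper59.BE
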