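import Mathlib
import Pool.Agent.Helper59.BE.Law
import Pool.Agent.Helper59.RE.Defs

/-!
The upper bound of the dimension for the law `1 + c cos 2π (m t - φ)`, in terms of Weyl sums.
-/

namespace Pool.Agent.Helper59.BE

open Filter Set
open scoped ENNReal Topology
open Pool.Agent.Helper59.RE (e norm_e e_add e_zero)

theorem re_e (x : ℝ) : (e x).re = Real.cos (2 * Real.pi * x) := by
  unfold e
  rw [show (2 * (Real.pi : ℂ) * Complex.I * (x : ℂ)) = ((2 * Real.pi * x : ℝ) : ℂ) * Complex.I by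
    push_cast; ring]
  exact Complex.exp_ofReal_mul_I_re _

/-- The upper bound for the law `1 + c cos 2π (m t - φ)`. -/
theorem upper_weyl {a b c φ : ℝ} (ha : 2 ≤ a) (hab : a < b) (hc0 : 0 ≤ c) (hc1 : c ≤ 1)
    (m : ℕ) (hm : 1 ≤ m) (gh : ℤ → ℂ) (hg1 : gh m = c / 2 * e φ)
    (hg2 : ∀ k : ℕ, 2 ≤ k → gh ((k : ℤ) * m) = 0) :
    dimH {x : ℝ | x ∈ Icc a b ∧ ∀ h : ℤ, Tendsto (fun N : ℕ => (∑ n ∈ Finset.range N,
      e (h * x ^ (n + 1))) / N) atTop (𝓝 (gh h))} ≤
      ENNReal.ofReal (1 - (1 - √(1 - c ^ 2) + Real.log ((1 + √(1 - c ^ 2)) / 2)) / Real.log b) := by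
  set s := √(1 - c ^ 2) with hs
  have hs0 : 0 ≤ s := Real.sqrt_nonneg _
  have hs2 : s ^ 2 = 1 - c ^ 2 := Real.sq_sqrt (by nlinarith)
  have hs1 : 0 < 1 + s := by linarith
  set ρ := c / (1 + s) with hρ
  have hρ0 : 0 ≤ ρ := by positivity
  have hρ1 : ρ ≤ 1 := by
    rw [hρ, div_le_one hs1]
    linarith
  have h1 : 1 + ρ ^ 2 = 2 / (1 + s) := by
    rw [hρ]
    field_simp
    nlinarith
  have h2 : ρ / (1 + ρ ^ 2) = c / 2 := by
    rw [h1, hρ]
    field_simp
  have h3 : 2 * ρ ^ 2 / (1 + ρ ^ 2) - Real.log (1 + ρ ^ 2) =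
      1 - s + Real.log ((1 + s) / 2) := by
    have h4 : Real.log (1 + ρ ^ 2) = -Real.log ((1 + s) / 2) := by
      rw [h1, ← Real.log_inv, inv_div]
    have h5 : 2 * ρ ^ 2 / (1 + ρ ^ 2) = 1 - s := by
      have h6 : 2 * ρ ^ 2 / (1 + ρ ^ 2) = 2 * ρ * (ρ / (1 + ρ ^ 2)) := by ring
      rw [h6, h2, hρ]
      have h7 : c ^ 2 = (1 - s) * (1 + s) := by nlinarith
      field_simp
      linarith
    rw [h4, h5]
    ring
  have h := upper_law (m := (m : ℝ)) ha hab hρ0 hρ1 (by exact_mod_cast hm) (fun _ => -φ)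
  rw [h3] at h
  refine le_trans (dimH_mono ?_) h
  intro x hx
  refine ⟨hx.1, fun k hk => ?_⟩
  have h4 := ((hx.2 ((k : ℤ) * m)).const_mul (e (-(k * φ))))
  have h5 := (Complex.continuous_re.tendsto _).comp h4
  have h6 : (e (-(k * φ)) * gh ((k : ℤ) * m)).re = if k = 1 then ρ / (1 + ρ ^ 2) else 0 := by
    by_cases hk1 : k = 1
    · subst hk1
      rw [if_pos rfl, h2]
      have h7 : gh (((1 : ℕ) : ℤ) * m) = c / 2 * e φ := by
        rw [Nat.cast_one, one_mul, hg1]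
      rw [h7]
      have h8 : e (-(((1 : ℕ) : ℝ) * φ)) * (c / 2 * e φ) = ((c / 2 : ℝ) : ℂ) := by
        have h9 : e (-(((1 : ℕ) : ℝ) * φ)) * e φ = 1 := by
          rw [← e_add, Nat.cast_one, one_mul, neg_add_cancel, e_zero]
        calc e (-(((1 : ℕ) : ℝ) * φ)) * (c / 2 * e φ) =
            c / 2 * (e (-(((1 : ℕ) : ℝ) * φ)) * e φ) := by ring
          _ = _ := by
            rw [h9]
            push_cast
            ring
      rw [h8, Complex.ofReal_re]
    · rw [if_neg hk1, hg2 k (by omega), mul_zero, Complex.zero_re]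
  rw [h6] at h5
  refine h5.congr fun N => ?_
  simp only [Function.comp_apply]
  have h7 : e (-(k * φ)) * ((∑ n ∈ Finset.range N, e (((k : ℤ) * m : ℤ) * x ^ (n + 1))) / N) =
      (∑ n ∈ Finset.range N, e (k * (-φ + m * x ^ (n + 1)))) / N := by
    rw [mul_div_assoc', Finset.mul_sum]
    congr 1
    apply Finset.sum_congr rfl
    intro n _
    rw [← e_add]
    congr 1
    push_cast
    ring
  rw [h7, ← Complex.ofReal_natCast, Complex.div_ofReal_re, Complex.re_sum]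
  congr 1
  apply Finset.sum_congr rfl
  intro n _
  rw [re_e]
  congr 1
  ring

end Pool.Agent.Helper59.BE
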